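import Pool.Agent.PCFAT7.Asm
import Pool.Agent.PCFAT5.Five
import Pool.Agent.PCFAT6.End4
import Pool.Agent.PCF4.Four
import Pool.Agent.PCF4T.Final
import Pool.Agent.PCF3.Final

/-! Every connected AT-free graph of maximum degree at least 3 has a proper conflict-free colouring
with maximum degree plus one colours. -/

namespace Pool.Agent.Results.MP_374c4e_co.AllDegrees

open PCFAT PCFAT7 PCFAT6

/-- A proper conflict-free colouring: adjacent vertices get different colours, and each vertex with
at least one neighbour has a neighbour whose colour occurs on no other neighbour. -/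
def IsPCFColouring {V C : Type*} (G : SimpleGraph V) (c : V → C) : Prop :=
  (∀ u v, G.Adj u v → c u ≠ c v) ∧
  (∀ v, (∃ u, G.Adj v u) → ∃ u, G.Adj v u ∧ ∀ u', G.Adj v u' → c u' = c u → u' = u)

/-- The least number of colours in a proper conflict-free colouring. -/
noncomputable def chiPCF {V : Type*} (G : SimpleGraph V) : ℕ :=
  sInf {n : ℕ | ∃ c : V → Fin n, IsPCFColouring G c}

/-- An asteroidal triple: three pairwise distinct, pairwise non-adjacent vertices such that each two
of them are joined by a path which contains no neighbour of the third. -/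
def IsAsteroidalTriple {V : Type*} (G : SimpleGraph V) (u v w : V) : Prop :=
  u ≠ v ∧ v ≠ w ∧ u ≠ w ∧ ¬ G.Adj u v ∧ ¬ G.Adj v w ∧ ¬ G.Adj u w ∧
  (∃ q : G.Walk u v, q.IsPath ∧ ∀ x ∈ q.support, ¬ G.Adj x w) ∧
  (∃ q : G.Walk v w, q.IsPath ∧ ∀ x ∈ q.support, ¬ G.Adj x u) ∧
  (∃ q : G.Walk u w, q.IsPath ∧ ∀ x ∈ q.support, ¬ G.Adj x v)

theorem transfer {V : Type*} {G : SimpleGraph V} {k n : ℕ} (hn : n = k + 3)
    (h : ∃ c : V → Fin k ⊕ ZMod 3, IsPCF G c) : ∃ c : V → Fin n, IsPCFColouring G c := by
  obtain ⟨c, hc1, hc2⟩ := h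
  have hcardeq : Fintype.card (Fin k ⊕ ZMod 3) = Fintype.card (Fin n) := by
    rw [Fintype.card_sum, Fintype.card_fin, Fintype.card_fin, ZMod.card, hn]
  have e := Fintype.equivOfCardEq hcardeq
  refine ⟨fun v => e (c v), fun u v ha he => ?_, fun v hv => ?_⟩
  · exact hc1 u v ha (e.injective he)
  · obtain ⟨u, hu1, hu2⟩ := hc2 v hv
    exact ⟨u, hu1, fun u' h1 h2 => hu2 u' h1 (e.injective h2)⟩

theorem colouring {V : Type*} [Fintype V] (G : SimpleGraph V) [DecidableRel G.Adj]
    (hconn : G.Connected) (hAT : ∀ u v w : V, ¬ IsAsteroidalTriple G u v w)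
    (hdeg : 3 ≤ G.maxDegree) : ∃ c : V → Fin (G.maxDegree + 1), IsPCFColouring G c := by
  classical
  have hNb : ∀ v, (Nb G v).card ≤ G.maxDegree := by
    intro v
    have h1 : Nb G v = G.neighborFinset v := by
      ext u
      rw [mem_Nb, SimpleGraph.mem_neighborFinset]
    rw [h1, SimpleGraph.card_neighborFinset_eq_degree]
    exact G.degree_le_maxDegree v
  have hne : Nonempty V := hconn.nonempty
  by_cases h3 : G.maxDegree = 3
  · rw [h3]
    refine PCF3.deg_three G hconn hAT (fun v s hs => ?_) (Or.inl ?_)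
    · rw [← h3]
      exact le_trans (Finset.card_le_card (fun x hx => mem_Nb.2 (hs x hx))) (hNb v)
    · obtain ⟨v, hv⟩ := G.exists_maximal_degree_vertex
      rw [h3, ← SimpleGraph.card_neighborFinset_eq_degree] at hv
      obtain ⟨x, y, z, hx, hy, hz, hxy, hxz, hyz⟩ :=
        Finset.two_lt_card_iff.1 (show 2 < (G.neighborFinset v).card by omega)
      rw [SimpleGraph.mem_neighborFinset] at hx hy hz
      exact ⟨v, x, y, z, hxy, hxz, hyz, hx, hy, hz⟩
  by_cases h4 : G.maxDegree = 4
  · rw [h4]
    exact PCF4.four_of_noMin PCF4T.noMin hAT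
      (fun v => by rw [← h4]; exact hNb v)
  obtain ⟨a, b, hab⟩ := domPair (G := G) hAT hne
  obtain ⟨p, hp⟩ := exists_sp hconn a b
  have hD := hp.dp rfl hab
  rcases Nat.eq_zero_or_pos (G.dist a b) with h0 | h0
  · -- a universal vertex: all colours different
    rw [h0] at hD
    have hcard : Fintype.card V ≤ G.maxDegree + 1 := by
      have h1 : (Finset.univ : Finset V) ⊆ insert (p 0) (Nb G (p 0)) := by
        intro v _
        obtain ⟨i, hi, hi2⟩ := hD.dom v
        have : i = 0 := by omega
        subst this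
        rw [Finset.mem_insert, mem_Nb]
        rcases hi2 with h | h
        · exact Or.inl h
        · exact Or.inr h.symm
      have h2 := Finset.card_le_card h1
      have h3 := Finset.card_insert_le (p 0) (Nb G (p 0))
      have h4 := hNb (p 0)
      rw [Finset.card_univ] at h2
      omega
    obtain ⟨e⟩ : Nonempty (V ↪ Fin (G.maxDegree + 1)) := by
      apply Function.Embedding.nonempty_of_card_le
      simpa using hcard
    refine ⟨e, fun u v ha he => ?_, fun v hv => ?_⟩
    · exact ha.ne (e.injective he)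
    · obtain ⟨u, hu⟩ := hv
      exact ⟨u, hu, fun u' _ h => e.injective h⟩
  · by_cases h5 : G.maxDegree = 5
    · exact transfer (k := 3) (by omega) (PCFAT5.degFive hAT hconn hab h0
        (fun v => by rw [← h5]; exact hNb v))
    by_cases h6 : G.maxDegree = 6
    · exact transfer (k := 4) (by omega) (assemble6 hAT hconn hab h0
        (fun v => by rw [show 4 + 2 = G.maxDegree by omega]; exact hNb v))
    exact transfer (k := G.maxDegree - 2) (by omega) (assemble7 hAT hD h0 (by omega)
        (fun v => le_trans (hNb v) (by omega)))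

/-- Q1: every connected AT-free graph of maximum degree at least 3 has a proper conflict-free
colouring with `Δ(G) + 1` colours, so `χ_pcf(G) ≤ Δ(G) + 1`. -/
theorem result {V : Type*} [Fintype V] (G : SimpleGraph V) [DecidableRel G.Adj]
    (hconn : G.Connected) (hAT : ∀ u v w : V, ¬ IsAsteroidalTriple G u v w)
    (hdeg : 3 ≤ G.maxDegree) :
    (∃ c : V → Fin (G.maxDegree + 1), IsPCFColouring G c) ∧ chiPCF G ≤ G.maxDegree + 1 := by
  have h := colouring G hconn hAT hdeg
  exact ⟨h, Nat.sInf_le h⟩

end Pool.Agent.Results.MP_374c4e_co.AllDegrees
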